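import Pool.Agent.QSN.StmtsB2

/-!
# Squad QSN: row AZE
-/

set_option autoImplicit false

namespace Pool.Agent.QSN.H21

open Matrix Finset Pool.Agent.QSX Pool.Agent.QSN

theorem aze : AzeStmt := by
  classical
  intro X hX l hne
  obtain ⟨ap, hap⟩ := hX.pos
  have h1 : ∃ a : X.b, hX.rt (hX.top (hX.comp l)) a = 0 ∧ hX.rt l a ≠ 0 := by
    by_contra hcon
    push Not at hcon
    apply hX.nonprop l (hX.top (hX.comp l)) hne (hX.rt l ap / hX.rt (hX.top (hX.comp l)) ap)
    apply LinearMap.ext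
    intro a
    have hp : hX.rt (hX.top (hX.comp l)) ap ≠ 0 := (hap _).ne'
    have h0 := hcon (a - (hX.rt (hX.top (hX.comp l)) a / hX.rt (hX.top (hX.comp l)) ap) • ap)
      (by rw [map_sub, map_smul, smul_eq_mul]; field_simp; ring)
    rw [map_sub, map_smul, smul_eq_mul] at h0
    rw [LinearMap.smul_apply, smul_eq_mul]
    have h2 : hX.rt l a = hX.rt (hX.top (hX.comp l)) a / hX.rt (hX.top (hX.comp l)) ap *
        hX.rt l ap := by linarith
    rw [h2]; ring
  obtain ⟨a1, ha0, ha1⟩ := h1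
  obtain ⟨S, hS⟩ := hX.scal (fun i => if i = hX.comp l then 2 else 1)
    (fun i => by split_ifs <;> norm_num)
  obtain ⟨S', hS'⟩ := hX.scal (fun _ => 1) (fun _ => one_pos)
  have h2 : ∀ t, hX.rt t (S a1 - S' a1) = if hX.comp t = hX.comp l then hX.rt t a1 else 0 := by
    intro t
    rw [map_sub, hS, hS']
    split_ifs
    · ring
    · ring
  have hl : hX.rt l (S a1 - S' a1) = hX.rt l a1 := by rw [h2, if_pos rfl]
  have ht : ∀ t, hX.rt t = hX.rt (hX.top (hX.comp t)) → hX.rt t (S a1 - S' a1) = 0 := by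
    intro t h
    rw [h2]
    split_ifs with hc
    · rw [h, hc, ha0]
    · rfl
  rcases lt_or_gt_of_ne ha1 with hlt | hgt
  · refine ⟨-(S a1 - S' a1), by rw [map_neg, hl]; linarith, fun t h => by
      rw [map_neg, ht t h, neg_zero]⟩
  · exact ⟨S a1 - S' a1, by rw [hl]; exact hgt, ht⟩

end Pool.Agent.QSN.H21
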